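import Pool.Agent.Helper951_oc.FB
import Pool.Agent.Helper951_oc.FC

/-!
MP_3d0876_an, Q1: every group `G` for which `ℓ¹(G)` has open convolution is abelian. So the question has a negative
answer for all nonabelian groups, and it remains for abelian groups only.

Idea. Let `x y ≠ y x`. Put `S = (ζ x - ζ⁻¹ x⁻¹)/(2i)` with `ζ = exp(i/2)`, and `A = |S| = (S²)^{1/2}`, which lies in
`ℓ¹(G)` because `‖1 - S²‖ ≤ 1`. Then `(A + S) * (A - S) = 0`. If convolution is open at `(A + S, A - S)`, then for small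
`c ≠ 0` the element `c h`, `h = (A - S) * y * (A + S)`, is a product `f' * g'` with `f'` near `A + S` and `g'` near
`A - S`. A dimension count with the trace of the left regular representation shows that the support projection of `h` has
trace as small as we like, so `h = 0`. The same for `(A + S) * y * (A - S)`, so `A y A = S y S`, and the traces of
`y⁻¹ A y A` (positive) and `y⁻¹ S y S` (`0` or `-(cos 1)/2`) disagree.
-/

set_option linter.unusedSectionVars false

namespace Pool.Agent.Results.MP_3d0876_an.OpenConvolutionCommutes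

open scoped ENNReal InnerProductSpace
open Pool.Agent.Helper951_oc Filter

variable {G : Type*} [Group G]

theorem memℓp_conv (f g : lp (fun _ : G => ℂ) 1) :
    Memℓp (fun x : G => ∑' y : G, (f : G → ℂ) y * (g : G → ℂ) (y⁻¹ * x)) 1 := by
  have h := (cop 1 hp1 f g).2
  have e : (fun x : G => ∑' y : G, (f : G → ℂ) y * (g : G → ℂ) (y⁻¹ * x))
      = ((cop 1 hp1 f g : lp (fun _ : G => ℂ) 1) : G → ℂ) :=
    funext fun x => (cop_coe hp1 f g x).symm
  rw [e]
  exact h

/-- The convolution product of `ℓ¹(G)`: `(f * g)(x) = ∑_y f(y) g(y⁻¹ x)`. -/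
noncomputable def conv (f g : lp (fun _ : G => ℂ) 1) : lp (fun _ : G => ℂ) 1 :=
  ⟨fun x : G => ∑' y : G, (f : G → ℂ) y * (g : G → ℂ) (y⁻¹ * x), memℓp_conv f g⟩

/-- `ℓ¹(G)` has open convolution: `(f, g) ↦ f * g` is an open map. -/
def HasOpenConvolution (G : Type*) [Group G] : Prop :=
  IsOpenMap (fun q : lp (fun _ : G => ℂ) 1 × lp (fun _ : G => ℂ) 1 => conv q.1 q.2)

theorem conv_eq (f g : lp (fun _ : G => ℂ) 1) : conv f g = cop 1 hp1 f g :=
  lp.ext (funext fun x => (cop_coe hp1 f g x).symm)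

theorem isOpenMap_mul (h : HasOpenConvolution G) :
    IsOpenMap (fun q : A1 G × A1 G => q.1 * q.2) := by
  have e : (fun q : lp (fun _ : G => ℂ) 1 × lp (fun _ : G => ℂ) 1 => conv q.1 q.2)
      = (fun q : lp (fun _ : G => ℂ) 1 × lp (fun _ : G => ℂ) 1 => cop 1 hp1 q.1 q.2) :=
    funext fun q => conv_eq q.1 q.2
  unfold HasOpenConvolution at h
  rw [e] at h
  exact h

/-- If the convolution map `ℓ¹(G) × ℓ¹(G) → ℓ¹(G)` is open, then `G` is abelian. -/
theorem result : ∀ (G : Type*) [Group G], HasOpenConvolution G → ∀ x y : G, x * y = y * x := by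
  intro G _ h x y
  have hopen := isOpenMap_mul h
  obtain ⟨S, A, C, hS, hA, hC, hCC, hAA, hAS, hSdef, hker⟩ := data x
  have hp : SA (A + S) := by
    unfold SA at *
    rw [Lam_add, star_add, hA, hS]
  have hm : SA (A - S) := by
    unfold SA at *
    rw [Lam_sub, star_sub, hA, hS]
  have h0 : (A + S) * (A - S) = 0 := by
    have : (A + S) * (A - S) = A * A - S * S - (A * S - S * A) := by noncomm_ring
    rw [this, hAA, hAS]; simp
  have h0' : (A - S) * (A + S) = 0 := by
    have : (A - S) * (A + S) = A * A - S * S + (A * S - S * A) := by noncomm_ring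
    rw [this, hAA, hAS]; simp
  have hk : ∀ ξ : L2 G, Lam (A + S) ξ = 0 → Lam (A - S) ξ = 0 → ξ = 0 := by
    intro ξ h1 h2
    apply hker
    have h3 : (Lam (A + S) + Lam (A - S)) ξ = 0 := by
      change Lam (A + S) ξ + Lam (A - S) ξ = 0
      rw [h1, h2, add_zero]
    rw [Lam_add, Lam_sub] at h3
    have h4 : (Lam A + Lam S + (Lam A - Lam S)) = (2 : ℂ) • Lam A := by
      rw [two_smul]; abel
    rw [h4] at h3
    have h5 : (2 : ℂ) • (Lam A ξ) = 0 := h3
    exact (smul_eq_zero.1 h5).resolve_left two_ne_zero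
  have hk' : ∀ ξ : L2 G, Lam (A - S) ξ = 0 → Lam (A + S) ξ = 0 → ξ = 0 :=
    fun ξ h1 h2 => hk ξ h2 h1
  have e1 := kill hopen (A + S) (A - S) (dl y) h0 hp hm hk
  have e2 := kill hopen (A - S) (A + S) (dl y) h0' hm hp hk'
  exact trace_contra x y S A C hS hA hC hCC hSdef hker e1 e2

end Pool.Agent.Results.MP_3d0876_an.OpenConvolutionCommutes
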